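import Pool.Agent.Mg.F251804.G43ddb6

namespace Pool.Agent.MP_251804_lc.Old.Incomplete
open Pool.Agent.MP_251804_lc

theorem result (ε : ℝ) (hε : 0 < ε) (hε2 : ε < 1 / 2) : ∃ C c : ℝ, 0 < c ∧
    ∀ K : Set ℕ, (∀ F : Finset ℕ, (F : Set ℕ) ⊆ K → ∑ a ∈ F, 1 / (a : ℝ) ≤ c) →
      ∀ k l : ℕ → ℕ, (∀ n, 2 ≤ k n) → (∀ n, 2 ≤ l n) →
        (∀ᶠ n : ℕ in Filter.atTop, (l n : ℝ) ≤ (n : ℝ) ^ ε) → Complete ε k l →
          ∃ᶠ n : ℕ in Filter.atTop,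
            (l n = 2 ∧ (k n : ℝ) < C * Real.log n / Real.log (Real.log n)) ∨
              (l n = 3 ∧ k n ∉ K) :=
  main ε hε hε2

end Pool.Agent.MP_251804_lc.Old.Incomplete
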